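import Mathlib

set_option autoImplicit false

namespace Pool.Agent.H.MP_271f28_al

variable {S : Type} [Semigroup S] (T : Subsemigroup S)

def T1 : Submonoid (WithOne S) where
  carrier := {u | u = 1 ∨ ∃ t ∈ T, u = (t : WithOne S)}
  one_mem' := Or.inl rfl
  mul_mem' := by
    rintro a b (rfl | ⟨s, hs, rfl⟩) hb
    · simpa using hb
    · rcases hb with rfl | ⟨t, ht, rfl⟩
      · exact Or.inr ⟨s, hs, by simp⟩
      · exact Or.inr ⟨s * t, T.mul_mem hs ht, by simp⟩

lemma coe_mem_T1 (x : S) : (x : WithOne S) ∈ T1 T ↔ x ∈ T := by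
  constructor
  · rintro (h | ⟨t, ht, h⟩)
    · exact absurd h WithOne.coe_ne_one
    · rw [WithOne.coe_inj.1 h]; exact ht
  · intro h; exact Or.inr ⟨x, h, rfl⟩

def Rr (x y : S) : Prop :=
  insert x ((fun t => x * t) '' (T : Set S)) = insert y ((fun t => y * t) '' (T : Set S))

def Ll (x y : S) : Prop :=
  insert x ((fun t => t * x) '' (T : Set S)) = insert y ((fun t => t * y) '' (T : Set S))

def cls (x : S) : Set S := {y | Rr T x y ∧ Ll T x y}

lemma memR (x y : S) : y ∈ insert x ((fun t => x * t) '' (T : Set S)) ↔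
    ∃ a ∈ T1 T, (y : WithOne S) = x * a := by
  constructor
  · rintro (rfl | ⟨t, ht, rfl⟩)
    · exact ⟨1, (T1 T).one_mem, by simp⟩
    · exact ⟨t, (coe_mem_T1 T t).2 ht, by simp⟩
  · rintro ⟨a, rfl | ⟨t, ht, rfl⟩, h⟩
    · left; simpa using h
    · right; exact ⟨t, ht, (WithOne.coe_inj.1 (by simpa using h)).symm⟩

lemma memL (x y : S) : y ∈ insert x ((fun t => t * x) '' (T : Set S)) ↔
    ∃ a ∈ T1 T, (y : WithOne S) = a * x := by
  constructor
  · rintro (rfl | ⟨t, ht, rfl⟩)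
    · exact ⟨1, (T1 T).one_mem, by simp⟩
    · exact ⟨t, (coe_mem_T1 T t).2 ht, by simp⟩
  · rintro ⟨a, rfl | ⟨t, ht, rfl⟩, h⟩
    · left; simpa using h
    · right; exact ⟨t, ht, (WithOne.coe_inj.1 (by simpa using h)).symm⟩

lemma Rr_iff (x y : S) : Rr T x y ↔
    (∃ a ∈ T1 T, (y : WithOne S) = x * a) ∧ ∃ b ∈ T1 T, (x : WithOne S) = y * b := by
  constructor
  · intro h
    exact ⟨(memR T x y).1 (by rw [h]; exact Set.mem_insert _ _),
      (memR T y x).1 (by rw [← h]; exact Set.mem_insert _ _)⟩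
  · rintro ⟨⟨a, ha, h1⟩, b, hb, h2⟩
    ext z
    rw [memR, memR]
    constructor
    · rintro ⟨c, hc, h⟩
      exact ⟨b * c, (T1 T).mul_mem hb hc, by rw [h, ← mul_assoc, ← h2]⟩
    · rintro ⟨c, hc, h⟩
      exact ⟨a * c, (T1 T).mul_mem ha hc, by rw [h, ← mul_assoc, ← h1]⟩

lemma Ll_iff (x y : S) : Ll T x y ↔
    (∃ a ∈ T1 T, (y : WithOne S) = a * x) ∧ ∃ b ∈ T1 T, (x : WithOne S) = b * y := by
  constructor
  · intro h
    exact ⟨(memL T x y).1 (by rw [h]; exact Set.mem_insert _ _),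
      (memL T y x).1 (by rw [← h]; exact Set.mem_insert _ _)⟩
  · rintro ⟨⟨a, ha, h1⟩, b, hb, h2⟩
    ext z
    rw [memL, memL]
    constructor
    · rintro ⟨c, hc, h⟩
      exact ⟨c * b, (T1 T).mul_mem hc hb, by rw [h, mul_assoc, ← h2]⟩
    · rintro ⟨c, hc, h⟩
      exact ⟨c * a, (T1 T).mul_mem hc ha, by rw [h, mul_assoc, ← h1]⟩

lemma self_mem_cls (x : S) : x ∈ cls T x := ⟨rfl, rfl⟩

lemma cls_eq_iff (x y : S) : cls T x = cls T y ↔ y ∈ cls T x := by
  constructor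
  · intro h; rw [h]; exact self_mem_cls T y
  · rintro ⟨h1, h2⟩
    ext z
    exact ⟨fun ⟨a, b⟩ => ⟨h1.symm.trans a, h2.symm.trans b⟩,
      fun ⟨a, b⟩ => ⟨h1.trans a, h2.trans b⟩⟩

lemma not_mem_of_cls {x y : S} (hx : x ∉ T) (h : y ∈ cls T x) : y ∉ T := by
  intro hy
  obtain ⟨b, hb, h2⟩ := ((Rr_iff T x y).1 h.1).2
  apply hx
  rw [← coe_mem_T1, h2]
  exact (T1 T).mul_mem ((coe_mem_T1 T y).2 hy) hb

lemma green {x t : S} (ht : t ∈ T) (h : x * t ∈ cls T x) :
    (fun h => h * t) '' cls T x = cls T x := by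
  have ht1 := (coe_mem_T1 T t).2 ht
  obtain ⟨_, s, hs, e1⟩ := (Rr_iff T _ _).1 h.1
  rw [WithOne.coe_mul] at e1
  ext z
  constructor
  · rintro ⟨k, hk, rfl⟩
    obtain ⟨⟨u, hu, f1⟩, u', hu', f2⟩ := (Ll_iff T _ _).1 hk.2
    refine ⟨hk.1.trans ((Rr_iff T _ _).2 ⟨⟨t, ht1, by simp⟩, s, hs, ?_⟩),
      h.2.trans ((Ll_iff T _ _).2 ⟨⟨u, hu, ?_⟩, u', hu', ?_⟩)⟩
    · rw [WithOne.coe_mul, f1, mul_assoc u, mul_assoc u, ← e1]
    · rw [WithOne.coe_mul, WithOne.coe_mul, ← mul_assoc, ← f1]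
    · rw [WithOne.coe_mul, WithOne.coe_mul, ← mul_assoc, ← f2]
  · intro hz
    obtain ⟨⟨u, hu, f1⟩, u', hu', f2⟩ := (Ll_iff T _ _).1 (h.2.symm.trans hz.2)
    rw [WithOne.coe_mul] at f1 f2
    obtain ⟨k, hk⟩ : ∃ k : S, (k : WithOne S) = u * x := by
      induction u using WithOne.recOneCoe with
      | one => exact ⟨x, by simp⟩
      | coe u => exact ⟨u * x, by simp⟩
    have kt : k * t = z := WithOne.coe_inj.1 (by rw [WithOne.coe_mul, hk, f1, mul_assoc])
    have ks : (k : WithOne S) = z * s := by rw [hk, f1, mul_assoc u, ← e1]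
    refine ⟨k, ⟨hz.1.trans ((Rr_iff T _ _).2 ⟨⟨s, hs, ks⟩, t, ht1, by rw [← kt]; simp⟩),
      (Ll_iff T _ _).2 ⟨⟨u, hu, hk⟩, u', hu', ?_⟩⟩, kt⟩
    rw [ks, ← mul_assoc, ← f2, ← e1]

def Phi (u : WithOne S) : Set (WithOne S) := {s | u * s ∈ T1 T}

lemma range_finite (hfin : Set.Finite {C : Set S | ∃ x : S, x ∉ T ∧ C = cls T x}) :
    (Set.range (Phi T)).Finite := by
  let Ψ : Set S → Set (WithOne S) := fun C => {s | ∃ y ∈ C, (y : WithOne S) * s ∈ T1 T}
  let Θ : Set (Set S) → Set (WithOne S) := fun A =>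
    {s | s ∈ T1 T ∨ ∃ y : S, s = y ∧ cls T y ∈ A}
  refine ((hfin.image Ψ).union (hfin.finite_subsets.image Θ)).subset ?_
  rintro _ ⟨u, rfl⟩
  by_cases hu : u ∈ T1 T
  · refine Or.inr ⟨{C | ∃ y : S, y ∉ T ∧ C = cls T y ∧ u * y ∈ T1 T},
      fun C ⟨y, hy, hC, _⟩ => ⟨y, hy, hC⟩, ?_⟩
    ext s
    constructor
    · rintro (hs | ⟨y, rfl, z, _, hyz, hz⟩)
      · exact (T1 T).mul_mem hu hs
      · obtain ⟨b, hb, e⟩ := ((Rr_iff T _ _).1 ((cls_eq_iff T y z).1 hyz).1).2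
        show u * y ∈ T1 T
        rw [e, ← mul_assoc]
        exact (T1 T).mul_mem hz hb
    · intro hs
      by_cases hs' : s ∈ T1 T
      · exact Or.inl hs'
      · induction s using WithOne.recOneCoe with
        | one => exact absurd (T1 T).one_mem hs'
        | coe y => exact Or.inr ⟨y, rfl, y, fun h => hs' ((coe_mem_T1 T y).2 h), rfl, hs⟩
  · induction u using WithOne.recOneCoe with
    | one => exact absurd (T1 T).one_mem hu
    | coe x =>
      refine Or.inl ⟨cls T x, ⟨x, fun h => hu ((coe_mem_T1 T x).2 h), rfl⟩, ?_⟩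
      ext s
      constructor
      · rintro ⟨y, hy, hs⟩
        obtain ⟨b, hb, e⟩ := ((Ll_iff T _ _).1 hy.2).2
        show (x : WithOne S) * s ∈ T1 T
        rw [e, mul_assoc]
        exact (T1 T).mul_mem hb hs
      · intro hs
        exact ⟨x, self_mem_cls T x, hs⟩

lemma fg_top (hfg : ∃ F : Finset S, Subsemigroup.closure (↑F : Set S) = T)
    (hfin : Set.Finite {C : Set S | ∃ x : S, x ∉ T ∧ C = cls T x}) :
    ∃ A : Set S, A.Finite ∧ ∀ x, x ∈ Subsemigroup.closure A := by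
  obtain ⟨F, hF⟩ := hfg
  have : ∀ C ∈ {C : Set S | ∃ x : S, x ∉ T ∧ C = cls T x}, ∃ x, C = cls T x :=
    fun C ⟨x, _, h⟩ => ⟨x, h⟩
  by_cases hne : Nonempty S
  swap
  · exact ⟨∅, Set.finite_empty, fun x => absurd ⟨x⟩ hne⟩
  choose! r hr using this
  refine ⟨↑F ∪ r '' {C : Set S | ∃ x : S, x ∉ T ∧ C = cls T x},
    F.finite_toSet.union (hfin.image r), fun x => ?_⟩
  have hT : ∀ t ∈ T, t ∈ Subsemigroup.closure
      (↑F ∪ r '' {C : Set S | ∃ x : S, x ∉ T ∧ C = cls T x}) := by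
    intro t ht
    rw [← hF] at ht
    exact Subsemigroup.closure_mono Set.subset_union_left ht
  by_cases hx : x ∈ T
  · exact hT x hx
  · have h1 := hr (cls T x) ⟨x, hx, rfl⟩
    have h2 : r (cls T x) ∈ Subsemigroup.closure
        (↑F ∪ r '' {C : Set S | ∃ x : S, x ∉ T ∧ C = cls T x}) :=
      Subsemigroup.subset_closure (Or.inr ⟨_, ⟨x, hx, rfl⟩, rfl⟩)
    have h3 : x ∈ insert (r (cls T x)) ((fun t => r (cls T x) * t) '' (T : Set S)) := by
      rw [← ((cls_eq_iff T _ _).1 h1).1]; exact Set.mem_insert _ _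
    rcases h3 with h3 | ⟨t, ht, h3⟩
    · rw [h3]; exact h2
    · rw [← h3]; exact Subsemigroup.mul_mem _ h2 (hT t ht)

lemma exists_period (hfg : ∃ F : Finset S, Subsemigroup.closure (↑F : Set S) = T)
    (hfin : Set.Finite {C : Set S | ∃ x : S, x ∉ T ∧ C = cls T x})
    (f : S →ₙ* S) (hf : Function.Surjective f) :
    ∃ p, 0 < p ∧ ∀ x, f^[p] x ∈ T ↔ x ∈ T := by
  obtain ⟨A, hA, hgen⟩ := fg_top T hfg hfin
  have hR := range_finite T hfin
  have := hA.to_subtype
  have := hR.to_subtype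
  let θ : ℕ → A → Set.range (Phi T) → Set.range (Phi T) := fun n a q =>
    ⟨{s | ((f^[n] a : S) : WithOne S) * s ∈ q.1}, by
      obtain ⟨u, hu⟩ := q.2
      refine ⟨u * (f^[n] a : S), ?_⟩
      ext s
      rw [← hu]
      simp [Phi, mul_assoc]⟩
  have key : ∀ n m, θ n = θ m → ∀ x, f^[n] x ∈ T ↔ f^[m] x ∈ T := by
    intro n m h x
    have : ∀ u s : WithOne S, u * (f^[n] x : S) * s ∈ T1 T ↔ u * (f^[m] x : S) * s ∈ T1 T := by
      induction hgen x using Subsemigroup.closure_induction with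
      | mem a ha =>
        intro u s
        have := congrArg Subtype.val (congrFun (congrFun h ⟨a, ha⟩) ⟨Phi T u, u, rfl⟩)
        have := Set.ext_iff.1 this s
        simpa [θ, Phi, mul_assoc] using this
      | mul a b _ _ iha ihb =>
        intro u s
        rw [iterate_map_mul, iterate_map_mul, WithOne.coe_mul, WithOne.coe_mul, ← mul_assoc,
          ihb, mul_assoc (u * _), iha, ← mul_assoc, ← mul_assoc]
    simpa [coe_mem_T1] using this 1 1
  obtain ⟨n, m, hnm, h⟩ := Finite.exists_ne_map_eq_of_infinite θ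
  wlog hlt : n < m generalizing n m
  · exact this m n hnm.symm h.symm (by omega)
  refine ⟨m - n, by omega, fun x => ?_⟩
  obtain ⟨y, rfl⟩ := hf.iterate n x
  rw [← Function.iterate_add_apply, Nat.sub_add_cancel hlt.le]
  exact (key n m h y).symm

def iter (f : S →ₙ* S) (p : ℕ) : S →ₙ* S where
  toFun := f^[p]
  map_mul' := iterate_map_mul f p

lemma map_T1 (φ : S →ₙ* S) (hT : ∀ x, φ x ∈ T ↔ x ∈ T) {a : WithOne S} (ha : a ∈ T1 T) :
    WithOne.mapMulHom φ a ∈ T1 T := by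
  rcases ha with rfl | ⟨t, ht, rfl⟩
  · simpa using (T1 T).one_mem
  · simpa using (coe_mem_T1 T _).2 ((hT t).2 ht)

lemma map_cls (φ : S →ₙ* S) (hT : ∀ x, φ x ∈ T ↔ x ∈ T) {x y : S} (h : y ∈ cls T x) :
    φ y ∈ cls T (φ x) := by
  obtain ⟨⟨a, ha, e1⟩, b, hb, e2⟩ := (Rr_iff T _ _).1 h.1
  obtain ⟨⟨c, hc, e3⟩, d, hd, e4⟩ := (Ll_iff T _ _).1 h.2
  refine ⟨(Rr_iff T _ _).2 ⟨⟨_, map_T1 T φ hT ha, ?_⟩, _, map_T1 T φ hT hb, ?_⟩,
    (Ll_iff T _ _).2 ⟨⟨_, map_T1 T φ hT hc, ?_⟩, _, map_T1 T φ hT hd, ?_⟩⟩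
  · simpa using congrArg (WithOne.mapMulHom φ) e1
  · simpa using congrArg (WithOne.mapMulHom φ) e2
  · simpa using congrArg (WithOne.mapMulHom φ) e3
  · simpa using congrArg (WithOne.mapMulHom φ) e4

lemma exists_fix (hfin : Set.Finite {C : Set S | ∃ x : S, x ∉ T ∧ C = cls T x})
    (φ : S →ₙ* S) (hφ : Function.Surjective φ) (hT : ∀ x, φ x ∈ T ↔ x ∈ T) {x : S}
    (hx : x ∉ T) : ∃ q, 0 < q ∧ ∀ z, (φ^[q] z ∈ cls T x ↔ z ∈ cls T x) ∧
      (φ^[q] z = φ^[q] x → z ∈ cls T x) := by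
  have := hfin.to_subtype
  let G : {C : Set S | ∃ x : S, x ∉ T ∧ C = cls T x} →
      {C : Set S | ∃ x : S, x ∉ T ∧ C = cls T x} := fun C =>
    ⟨cls T (φ C.2.choose), _, fun h => C.2.choose_spec.1 ((hT _).1 h), rfl⟩
  have hG : ∀ y (hy : y ∉ T), G ⟨cls T y, y, hy, rfl⟩ =
      ⟨cls T (φ y), φ y, fun h => hy ((hT _).1 h), rfl⟩ := by
    intro y hy
    apply Subtype.ext
    have h : ∃ x : S, x ∉ T ∧ cls T y = cls T x := ⟨y, hy, rfl⟩
    exact ((cls_eq_iff T _ _).2 (map_cls T φ hT ((cls_eq_iff T _ _).1 h.choose_spec.2))).symm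
  have Gs : Function.Surjective G := by
    rintro ⟨_, y, hy, rfl⟩
    obtain ⟨z, rfl⟩ := hφ y
    exact ⟨_, hG z (fun h => hy ((hT _).2 h))⟩
  have Gi : Function.Injective G := Finite.injective_iff_surjective.2 Gs
  have hTq : ∀ q y, φ^[q] y ∈ T ↔ y ∈ T := by
    intro q
    induction q with
    | zero => simp
    | succ q ih => intro y; rw [Function.iterate_succ_apply', hT, ih]
  have hGq : ∀ q y (hy : y ∉ T), G^[q] ⟨cls T y, y, hy, rfl⟩ =
      ⟨cls T (φ^[q] y), φ^[q] y, fun h => hy ((hTq q _).1 h), rfl⟩ := by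
    intro q y hy
    induction q with
    | zero => rfl
    | succ q ih =>
      rw [Function.iterate_succ_apply', ih, hG _ (fun h => hy ((hTq q _).1 h))]
      apply Subtype.ext
      simp only [Function.iterate_succ_apply']
  obtain ⟨q, hq, hper⟩ := Gi.mem_periodicPts ⟨cls T x, x, hx, rfl⟩
  have hfix : cls T (φ^[q] x) = cls T x := by
    have := hper.eq
    rw [hGq _ _ hx] at this
    exact congrArg Subtype.val this
  have back : ∀ z, φ^[q] z ∈ cls T x → z ∈ cls T x := by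
    intro z hz
    have hzT : z ∉ T := fun h => not_mem_of_cls T hx hz ((hTq q z).2 h)
    have : G^[q] ⟨cls T x, x, hx, rfl⟩ = G^[q] ⟨cls T z, z, hzT, rfl⟩ := by
      rw [hGq _ _ hx, hGq _ _ hzT]
      apply Subtype.ext
      exact hfix.trans ((cls_eq_iff T _ _).2 hz)
    exact (cls_eq_iff T _ _).1 (congrArg Subtype.val (Gi.iterate q this))
  refine ⟨q, hq, fun z => ⟨⟨back z, fun hz => ?_⟩, fun hz => back z ?_⟩⟩
  · rw [← hfix]
    exact map_cls T (iter φ q) (hTq q) hz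
  · rw [hz, ← hfix]; exact self_mem_cls T _

def St (H : Set S) : Submonoid (WithOne S) := Submonoid.closure {u : WithOne S | u = 1 ∨
  ∃ t ∈ T, u = (t : WithOne S) ∧ (fun h => h * t) '' H = H}

def rel (H : Set S) (a b : St T H) : Prop :=
  ∀ h ∈ H, (h : WithOne S) * (a : WithOne S) = (h : WithOne S) * (b : WithOne S)

lemma St_act (H : Set S) {a : WithOne S} (ha : a ∈ St T H) :
    ∀ h ∈ H, ∃ k ∈ H, (h : WithOne S) * a = k := by
  induction ha using Submonoid.closure_induction with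
  | mem u hu =>
    intro h hh
    rcases hu with rfl | ⟨t, _, rfl, e⟩
    · exact ⟨h, hh, by simp⟩
    · exact ⟨h * t, by rw [← e]; exact ⟨h, hh, rfl⟩, by simp⟩
  | one => intro h hh; exact ⟨h, hh, by simp⟩
  | mul a b _ _ iha ihb =>
    intro h hh
    obtain ⟨k, hk, e⟩ := iha h hh
    obtain ⟨l, hl, e'⟩ := ihb k hk
    exact ⟨l, hl, by rw [← mul_assoc, e, e']⟩

def relCon (H : Set S) : Con (St T H) where
  r := rel T H
  iseqv := ⟨fun _ _ _ => rfl, fun h x hx => (h x hx).symm,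
    fun h h' x hx => (h x hx).trans (h' x hx)⟩
  mul' := by
    intro a b c d h1 h2 h hh
    obtain ⟨k, hk, e⟩ := St_act T H b.2 h hh
    rw [Submonoid.coe_mul, Submonoid.coe_mul, ← mul_assoc, ← mul_assoc, h1 h hh, e, h2 k hk]

lemma inj_on_cls {x : S} (φ : S →ₙ* S) (hφ : Function.Surjective φ)
    (hT : ∀ x, φ x ∈ T ↔ x ∈ T) (hH : ∀ z, φ z ∈ cls T x ↔ z ∈ cls T x)
    (hop : ∀ f : (conGen (rel T (cls T x))).Quotient →* (conGen (rel T (cls T x))).Quotient,
      Function.Surjective f → Function.Injective f)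
    {y : S} (hy : y ∈ cls T x) (e : φ y = φ x) : y = x := by
  have himg : ∀ k ∈ cls T x, ∃ h ∈ cls T x, φ h = k := by
    intro k hk
    obtain ⟨h, rfl⟩ := hφ k
    exact ⟨h, (hH h).1 hk, rfl⟩
  have gr : ∀ {h t : S}, h ∈ cls T x → t ∈ T → h * t ∈ cls T x →
      (fun h => h * t) '' cls T x = cls T x := by
    intro h t hh ht hht
    rw [(cls_eq_iff T _ _).2 hh] at hht ⊢
    exact green T ht hht
  have hmap : ∀ a ∈ St T (cls T x), WithOne.mapMulHom φ a ∈ St T (cls T x) := by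
    intro a ha
    induction ha using Submonoid.closure_induction with
    | mem u hu =>
      rcases hu with rfl | ⟨t, ht, rfl, e⟩
      · simpa using (St T _).one_mem
      · refine Submonoid.subset_closure (Or.inr ⟨φ t, (hT t).2 ht, by simp, ?_⟩)
        refine gr ((hH x).2 (self_mem_cls T x)) ((hT t).2 ht) ?_
        rw [← map_mul, hH, ← e]
        exact ⟨x, self_mem_cls T x, rfl⟩
    | one => simpa using (St T _).one_mem
    | mul a b _ _ iha ihb => simpa using (St T _).mul_mem iha ihb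
  let F : St T (cls T x) →* St T (cls T x) :=
    ((WithOne.mapMulHom φ).comp (St T (cls T x)).subtype).codRestrict _ (fun a => hmap a.1 a.2)
  have hF : ∀ a, (F a : WithOne S) = WithOne.mapMulHom φ a := fun a => rfl
  have Fs : Function.Surjective F := by
    rintro ⟨a, ha⟩
    induction ha using Submonoid.closure_induction with
    | mem u hu =>
      rcases hu with rfl | ⟨t, ht, rfl, e⟩
      · exact ⟨1, map_one F⟩
      · obtain ⟨s, rfl⟩ := hφ t
        refine ⟨⟨s, Submonoid.subset_closure (Or.inr ⟨s, (hT s).1 ht, rfl, ?_⟩)⟩,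
          Subtype.ext (by simp [hF])⟩
        refine green T ((hT s).1 ht) ((hH _).1 ?_)
        rw [map_mul, ← e]
        exact ⟨φ x, (hH x).2 (self_mem_cls T x), rfl⟩
    | one => exact ⟨1, map_one F⟩
    | mul a b _ _ iha ihb =>
      obtain ⟨c, hc⟩ := iha
      obtain ⟨d, hd⟩ := ihb
      exact ⟨c * d, by rw [map_mul, hc, hd]; rfl⟩
  have hle : conGen (rel T (cls T x)) ≤ Con.ker ((conGen (rel T (cls T x))).mk'.comp F) := by
    refine Con.conGen_le.2 fun a b hab => ?_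
    refine (Con.ker_rel _).2 (Con.eq _ |>.2 (ConGen.Rel.of _ _ fun k hk => ?_))
    obtain ⟨h, hh, rfl⟩ := himg k hk
    simpa [hF] using congrArg (WithOne.mapMulHom φ) (hab h hh)
  have hinj := hop (Con.lift _ _ hle) (by
    intro q
    obtain ⟨a, rfl⟩ := Con.mk'_surjective q
    obtain ⟨b, rfl⟩ := Fs a
    exact ⟨(b : (conGen (rel T (cls T x))).Quotient), rfl⟩)
  have h3 : y ∈ insert x ((fun t => x * t) '' (T : Set S)) := by
    rw [hy.1]; exact Set.mem_insert _ _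
  rcases h3 with h3 | ⟨t, ht, rfl⟩
  · exact h3
  let a : St T (cls T x) := ⟨t, Submonoid.subset_closure (Or.inr ⟨t, ht, rfl, green T ht hy⟩)⟩
  have h4 : rel T (cls T x) (F a) (F 1) := by
    intro k hk
    have hk' : k ∈ cls T (φ x) := by
      rw [← (cls_eq_iff T _ _).2 ((hH x).2 (self_mem_cls T x))]; exact hk
    obtain ⟨u, _, f1⟩ := ((Ll_iff T _ _).1 hk'.2).1
    have e' : ((φ x : S) : WithOne S) * (φ t : S) = (φ x : S) := by
      rw [← WithOne.coe_mul, ← map_mul]; exact congrArg _ e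
    rw [map_one, hF, f1]
    simp [a, mul_assoc, e']
  have h5 : ((a : St T (cls T x)) : (conGen (rel T (cls T x))).Quotient) = (1 : St T (cls T x)) :=
    hinj ((Con.eq _).2 (ConGen.Rel.of _ _ h4))
  have h6 : rel T (cls T x) a 1 :=
    (Con.conGen_le (c := relCon T (cls T x))).2 (fun _ _ h => h) ((Con.eq _).1 h5)
  have := h6 x (self_mem_cls T x)
  exact WithOne.coe_inj.1 (by simpa [a] using this)

theorem main (hfg : ∃ F : Finset S, Subsemigroup.closure (↑F : Set S) = T)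
    (hfin : Set.Finite {C : Set S | ∃ x : S, x ∉ T ∧ C = cls T x})
    (hopT : ∀ f : T →ₙ* T, Function.Surjective f → Function.Injective f)
    (hop : ∀ H : Set S, (∃ x : S, x ∉ T ∧ H = cls T x) →
      ∀ f : (conGen (rel T H)).Quotient →* (conGen (rel T H)).Quotient,
        Function.Surjective f → Function.Injective f)
    (f : S →ₙ* S) (hf : Function.Surjective f) : Function.Injective f := by
  obtain ⟨p, hp, hT⟩ := exists_period T hfg hfin f hf
  have hφ : Function.Surjective (iter f p) := hf.iterate p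
  have hT' : ∀ x, iter f p x ∈ T ↔ x ∈ T := hT
  intro y x hyx
  have e : iter f p y = iter f p x := by
    obtain ⟨k, rfl⟩ : ∃ k, p = k + 1 := ⟨p - 1, by omega⟩
    show f^[k + 1] y = f^[k + 1] x
    rw [Function.iterate_succ_apply, Function.iterate_succ_apply, hyx]
  generalize iter f p = φ at hφ hT' e
  by_cases hx : x ∈ T
  · have hy : y ∈ T := by rw [← hT', e, hT']; exact hx
    let g : T →ₙ* T :=
      { toFun := fun t => ⟨φ t, (hT' t).2 t.2⟩
        map_mul' := fun a b => Subtype.ext (map_mul φ _ _) }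
    have gs : Function.Surjective g := by
      rintro ⟨t, ht⟩
      obtain ⟨s, rfl⟩ := hφ t
      exact ⟨⟨s, (hT' s).1 ht⟩, rfl⟩
    exact congrArg Subtype.val (hopT g gs (a₁ := ⟨y, hy⟩) (a₂ := ⟨x, hx⟩) (Subtype.ext e))
  · obtain ⟨q, hq, h⟩ := exists_fix T hfin φ hφ hT' hx
    have e' : φ^[q] y = φ^[q] x := by
      obtain ⟨k, rfl⟩ : ∃ k, q = k + 1 := ⟨q - 1, by omega⟩
      rw [Function.iterate_succ_apply, Function.iterate_succ_apply, e]
    have hTq : ∀ q y, φ^[q] y ∈ T ↔ y ∈ T := by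
      intro q
      induction q with
      | zero => simp
      | succ q ih => intro y; rw [Function.iterate_succ_apply', hT', ih]
    exact inj_on_cls T (iter φ q) (hφ.iterate q) (hTq q) (fun z => (h z).1)
      (hop _ ⟨x, hx, rfl⟩) ((h y).2 e') e'

end Pool.Agent.H.MP_271f28_al
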